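import Mathlib
import Pool.Agent.N718.LB.Stm

/-!
Project LB (helper718), part MAINT: from almost all pairs of vectors to almost all coefficients.
-/

set_option autoImplicit false

open Finset

namespace Pool.Agent.N946.LB

open Pool.Agent.N718.LB

theorem psol_mono {X Y : ℝ} (h : X ≤ Y) {a : Fin 3 → ℤ} (hp : PSol X a) : PSol Y a := by
  obtain ⟨P, h1, h2⟩ := hp
  exact ⟨P, fun i => ⟨(h1 i).1, (h1 i).2.trans h⟩, h2⟩

theorem mem_V3 {H : ℕ} {a : Fin 3 → ℤ} : a ∈ V3 H ↔ ∀ i, |a i| ≤ (H : ℤ) := by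
  unfold V3
  simp only [Fintype.mem_piFinset, mem_Icc, abs_le]

theorem le_dt (v : Fin 3 → ℤ) (i : Fin 3) : v i ^ 2 ≤ dt v v := by
  unfold dt
  fin_cases i <;> simp <;> nlinarith [sq_nonneg (v 0), sq_nonneg (v 1), sq_nonneg (v 2)]

set_option maxHeartbeats 4000000 in
open Classical in
theorem maint_ (h1 : S_MAINL) (h2 : S_LAT) (h3 : S_SHORT) : S_MAINT := by
  obtain ⟨κ₀, hκ₀⟩ := h1
  obtain ⟨C, hC, hS⟩ := h3
  refine ⟨κ₀ + 1, fun η hη => ?_⟩
  obtain ⟨K, hK1, hK⟩ : ∃ K : ℕ, 1 ≤ K ∧ 2 * C ≤ η * (K : ℝ) ^ 2 := by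
    refine ⟨⌈2 * C / η⌉₊ + 1, by omega, ?_⟩
    have e1 : 2 * C / η ≤ ((⌈2 * C / η⌉₊ + 1 : ℕ) : ℝ) := by
      refine (Nat.le_ceil _).trans ?_
      push_cast
      linarith
    have e2 : (1 : ℝ) ≤ ((⌈2 * C / η⌉₊ + 1 : ℕ) : ℝ) := by
      exact_mod_cast (by omega : 1 ≤ ⌈2 * C / η⌉₊ + 1)
    rw [div_le_iff₀ hη] at e1
    nlinarith
  have hK0 : (1 : ℝ) ≤ K := by exact_mod_cast hK1
  obtain ⟨H₀, hH₀⟩ := hκ₀ (η / (2 * (9 * K) ^ 6)) (by positivity)
  refine ⟨⌈Real.exp (3 * K)⌉₊ + (3 * K) ^ 2 + H₀ ^ 2, fun A hA => ?_⟩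
  set s : ℝ := √(A : ℝ) with hs
  have hA0 : (0 : ℝ) ≤ A := Nat.cast_nonneg A
  have hss : s ^ 2 = A := Real.sq_sqrt hA0
  have hs0 : 0 ≤ s := Real.sqrt_nonneg _
  have hs1 : 3 * (K : ℝ) ≤ s := by
    apply Real.le_sqrt_of_sq_le
    exact_mod_cast (by omega : (3 * K) ^ 2 ≤ A)
  have hs2 : (H₀ : ℝ) ≤ s := by
    apply Real.le_sqrt_of_sq_le
    exact_mod_cast (by omega : H₀ ^ 2 ≤ A)
  have hAexp : Real.exp (3 * K) ≤ A := by
    refine (Nat.le_ceil _).trans ?_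
    exact_mod_cast (by omega : ⌈Real.exp (3 * K)⌉₊ ≤ A)
  have hApos : (0 : ℝ) < A := (Real.exp_pos _).trans_le hAexp
  have hlog : 3 * (K : ℝ) ≤ Real.log A := by
    rw [Real.le_log_iff_exp_le hApos]; exact hAexp
  have hrp : (A : ℝ) ^ (1 / 2 : ℝ) = s := by rw [hs, Real.sqrt_eq_rpow]
  rw [hrp]
  -- short vectors
  set R : ℕ := ⌊s / K⌋₊ with hR
  have hR1 : 1 ≤ R := by
    rw [hR, Nat.one_le_floor_iff, le_div_iff₀ (by linarith)]
    linarith
  have hRs : (R : ℝ) ≤ s / K := Nat.floor_le (by positivity)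
  have hRs' : s / K < R + 1 := Nat.lt_floor_add_one _
  have hsA : s ≤ A := by rw [← hss]; nlinarith
  have hRA : R ≤ A := by
    have : (R : ℝ) ≤ A := by
      refine hRs.trans ?_
      rw [div_le_iff₀ (by linarith)]
      nlinarith
    exact_mod_cast this
  have hshort := hS A R hR1 hRA
  set B1 := (V3 A).filter (fun a => ∃ v : Fin 3 → ℤ, v ≠ 0 ∧ (∀ i, |v i| ≤ R) ∧ dt a v = 0)
    with hB1
  have hB1c : (B1.card : ℝ) ≤ η / 2 * (A : ℝ) ^ 3 := by
    refine hshort.trans ?_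
    have e1 : (R : ℝ) ^ 2 ≤ A / (K : ℝ) ^ 2 := by
      calc (R : ℝ) ^ 2 ≤ (s / K) ^ 2 := pow_le_pow_left₀ (Nat.cast_nonneg _) hRs 2
        _ = A / (K : ℝ) ^ 2 := by rw [div_pow, hss]
    have e2 : C * (A : ℝ) ^ 2 * (R : ℝ) ^ 2 ≤ C * (A : ℝ) ^ 2 * (A / (K : ℝ) ^ 2) :=
      mul_le_mul_of_nonneg_left e1 (by positivity)
    have e3 : C / (K : ℝ) ^ 2 ≤ η / 2 := by
      rw [div_le_iff₀ (by positivity)]
      linarith
    calc C * (A : ℝ) ^ 2 * (R : ℝ) ^ 2 ≤ C * (A : ℝ) ^ 2 * (A / (K : ℝ) ^ 2) := e2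
      _ = C / (K : ℝ) ^ 2 * (A : ℝ) ^ 3 := by ring
      _ ≤ _ := mul_le_mul_of_nonneg_right e3 (by positivity)
  -- the other vectors
  set H : ℕ := ⌈2 * K * s⌉₊ with hH
  have hHge : 2 * K * s ≤ H := Nat.le_ceil _
  have hHlt : (H : ℝ) < 2 * K * s + 1 := Nat.ceil_lt_add_one (by positivity)
  have hKs : 1 ≤ K * s := by nlinarith
  have hH3 : (H : ℝ) ≤ 3 * K * s := by linarith
  have hHH₀ : H₀ ≤ H := by
    have : (H₀ : ℝ) ≤ H := by nlinarith
    exact_mod_cast this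
  have hHA : (H : ℝ) ≤ A := by
    rw [← hss]
    nlinarith
  have hH1 : (1 : ℝ) ≤ H := by nlinarith
  have hX : (H : ℝ) * Real.log H ^ κ₀ ≤ s * Real.log A ^ (κ₀ + 1) := by
    have e1 : Real.log H ≤ Real.log A := Real.log_le_log (by linarith) hHA
    have e2 : 0 ≤ Real.log H := Real.log_nonneg hH1
    have e3 : Real.log H ^ κ₀ ≤ Real.log A ^ κ₀ := pow_le_pow_left₀ e2 e1 κ₀
    have e4 : 0 ≤ Real.log A := e2.trans e1
    calc (H : ℝ) * Real.log H ^ κ₀ ≤ (3 * K * s) * Real.log A ^ κ₀ :=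
          mul_le_mul hH3 e3 (pow_nonneg e2 _) (by positivity)
      _ = 3 * K * (s * Real.log A ^ κ₀) := by ring
      _ ≤ Real.log A * (s * Real.log A ^ κ₀) := mul_le_mul_of_nonneg_right hlog (by positivity)
      _ = _ := by ring
  set B2 := ((V3 H ×ˢ V3 H).filter (fun v => Adm (cr v.1 v.2) ∧
    ¬ PSol (H * Real.log H ^ κ₀) (cr v.1 v.2))).image (fun v => cr v.1 v.2) with hB2
  have hB2c : (B2.card : ℝ) ≤ η / 2 * (A : ℝ) ^ 3 := by
    have e1 : (B2.card : ℝ) ≤ η / (2 * (9 * K) ^ 6) * ((2 * H + 1 : ℕ) : ℝ) ^ 6 := by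
      refine le_trans ?_ (hH₀ H hHH₀)
      exact_mod_cast card_image_le
    refine e1.trans ?_
    have e2 : ((2 * H + 1 : ℕ) : ℝ) ≤ 9 * K * s := by
      push_cast
      linarith
    have e3 : ((2 * H + 1 : ℕ) : ℝ) ^ 6 ≤ (9 * K * s) ^ 6 :=
      pow_le_pow_left₀ (Nat.cast_nonneg _) e2 6
    calc η / (2 * (9 * K) ^ 6) * ((2 * H + 1 : ℕ) : ℝ) ^ 6
        ≤ η / (2 * (9 * K) ^ 6) * (9 * K * s) ^ 6 := mul_le_mul_of_nonneg_left e3 (by positivity)
      _ = η / 2 * (s ^ 2) ^ 3 := by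
          rw [mul_pow (9 * (K : ℝ)) s]
          have : (9 * (K : ℝ)) ^ 6 ≠ 0 := by positivity
          field_simp
      _ = η / 2 * (A : ℝ) ^ 3 := by rw [hss]
  have hsub : (V3 A).filter (fun a => Adm a ∧ ¬ PSol (s * Real.log A ^ (κ₀ + 1)) a) ⊆ B1 ∪ B2 := by
    intro a ha
    rw [mem_filter] at ha
    obtain ⟨haV, haA, haP⟩ := ha
    rw [mem_union]
    by_cases hB : a ∈ B1
    · exact Or.inl hB
    · right
      obtain ⟨t, ht⟩ : ∃ t : Fin 3 → ℤ, dt t a = 1 := by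
        obtain ⟨u, v, huv⟩ := haA.2.2.2.1 0 1 (by decide)
        refine ⟨![u, v, 0], ?_⟩
        simp [dt]
        linarith
      obtain ⟨v, w, hvw, hv0, hvw1, hvw2⟩ := h2 a ⟨t, ht⟩
      have horth : dt a v = 0 := by
        rw [← hvw]
        simp [dt, cr]
        ring
      have hbig : ∃ i, (R : ℤ) < |v i| := by
        by_contra hcon
        push Not at hcon
        apply hB
        rw [hB1, mem_filter]
        exact ⟨haV, v, hv0, hcon, horth⟩
      obtain ⟨i, hi⟩ := hbig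
      have hvv : (A : ℝ) ≤ (K : ℝ) ^ 2 * (dt v v : ℤ) := by
        have e1 : ((R : ℝ) + 1) ≤ |(v i : ℝ)| := by
          have : (R : ℤ) + 1 ≤ |v i| := hi
          exact_mod_cast this
        have e2 : s / K ≤ |(v i : ℝ)| := hRs'.le.trans e1
        have e3 : (s / K) ^ 2 ≤ (v i : ℝ) ^ 2 := by
          rw [← sq_abs (v i : ℝ)]
          exact pow_le_pow_left₀ (by positivity) e2 2
        have e4 : ((v i ^ 2 : ℤ) : ℝ) ≤ (dt v v : ℤ) := by exact_mod_cast le_dt v i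
        push_cast at e4
        rw [div_pow, hss, div_le_iff₀ (by positivity)] at e3
        nlinarith [sq_nonneg (K : ℝ)]
      have haa : ((dt a a : ℤ) : ℝ) ≤ 3 * (A : ℝ) ^ 2 := by
        have e1 : ∀ j, (a j) ^ 2 ≤ (A : ℤ) ^ 2 := by
          intro j
          rw [← sq_abs]
          exact pow_le_pow_left₀ (abs_nonneg _) (mem_V3.1 haV j) 2
        have e2 : dt a a ≤ 3 * (A : ℤ) ^ 2 := by
          have := e1 0
          have := e1 1
          have := e1 2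
          unfold dt
          nlinarith
        exact_mod_cast e2
      have hww : ((dt w w : ℤ) : ℝ) ≤ 4 * (K : ℝ) ^ 2 * A := by
        have e1 : (3 : ℝ) * (dt v v : ℤ) * (dt w w : ℤ) ≤ 4 * (dt a a : ℤ) := by
          exact_mod_cast hvw2
        have e2 : 0 ≤ ((dt w w : ℤ) : ℝ) := by
          have : 0 ≤ dt w w := by
            unfold dt; nlinarith [sq_nonneg (w 0), sq_nonneg (w 1), sq_nonneg (w 2)]
          exact_mod_cast this
        by_contra hcon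
        push Not at hcon
        have e3 : (A : ℝ) * (dt w w : ℤ) ≤ (K : ℝ) ^ 2 * (dt v v : ℤ) * (dt w w : ℤ) :=
          mul_le_mul_of_nonneg_right hvv e2
        have e4 : (A : ℝ) * (4 * (K : ℝ) ^ 2 * A) < A * (dt w w : ℤ) :=
          mul_lt_mul_of_pos_left hcon hApos
        have e5 : (K : ℝ) ^ 2 * ((3 : ℝ) * (dt v v : ℤ) * (dt w w : ℤ)) ≤
            (K : ℝ) ^ 2 * (4 * (3 * (A : ℝ) ^ 2)) := by
          apply mul_le_mul_of_nonneg_left _ (by positivity)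
          linarith
        nlinarith
      have hcoord : ∀ u : Fin 3 → ℤ, dt u u ≤ dt w w → u ∈ V3 H := by
        intro u hu
        rw [mem_V3]
        intro j
        have e1 : ((u j ^ 2 : ℤ) : ℝ) ≤ (dt w w : ℤ) := by exact_mod_cast (le_dt u j).trans hu
        push_cast at e1
        have e2 : (u j : ℝ) ^ 2 ≤ (2 * K * s) ^ 2 := by
          have : (2 * K * s) ^ 2 = 4 * (K : ℝ) ^ 2 * A := by rw [← hss]; ring
          rw [this]
          exact e1.trans hww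
        have e3 : |(u j : ℝ)| ≤ 2 * K * s := abs_le_of_sq_le_sq e2 (by positivity)
        have e4 : |(u j : ℝ)| ≤ H := e3.trans hHge
        exact_mod_cast e4
      rw [hB2, mem_image]
      refine ⟨(v, w), ?_, hvw⟩
      rw [mem_filter, mem_product]
      refine ⟨⟨hcoord v hvw1, hcoord w le_rfl⟩, ?_, ?_⟩
      · simp only; rw [hvw]; exact haA
      · simp only
        rw [hvw]
        exact fun h => haP (psol_mono hX h)
  calc _ ≤ ((B1 ∪ B2).card : ℝ) := by exact_mod_cast card_le_card hsub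
    _ ≤ (B1.card : ℝ) + B2.card := by exact_mod_cast card_union_le _ _
    _ ≤ η * (A : ℝ) ^ 3 := by linarith

end Pool.Agent.N946.LB
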